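import Pool.Agent.Helper17.IR.Goals

/-!
Project IR (MP_6829b3_nt), packet SUN: the unit equation for `2 ^ a * 3 ^ b`.
-/

set_option autoImplicit false

namespace Pool.Agent.Helper57.IR

open Pool.Agent.Helper17.IR

/-- two of the terms have a bounded quotient. -/
def Two {r : ℕ} (a b : Fin r → ℤ) (E : ℕ) : Prop :=
  ∃ i j, i ≠ j ∧ |a i - a j| ≤ E ∧ |b i - b j| ≤ E

/-- the relation with coefficients `d`. -/
def Rel {r : ℕ} (d : Fin r → ℚ) (a b : Fin r → ℤ) : Prop :=
  ∑ i, d i * ((2 : ℚ) ^ a i * 3 ^ b i) = 0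

theorem Two.mono {r : ℕ} {a b : Fin r → ℤ} {E E' : ℕ} (h : Two a b E) (hE : E ≤ E') :
    Two a b E' := by
  obtain ⟨i, j, hij, h1, h2⟩ := h
  have : (E : ℤ) ≤ E' := by exact_mod_cast hE
  exact ⟨i, j, hij, h1.trans this, h2.trans this⟩

theorem Two.lift {s : ℕ} {a b : Fin (s + 1) → ℤ} {E : ℕ} (i : Fin (s + 1))
    (h : Two (fun j => a (i.succAbove j)) (fun j => b (i.succAbove j)) E) : Two a b E := by
  obtain ⟨j, k, hjk, h1, h2⟩ := h
  exact ⟨i.succAbove j, i.succAbove k, fun h => hjk (Fin.succAbove_right_injective h), h1, h2⟩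

theorem fin_bound {r : ℕ}
    (hS : ∀ d : Fin r → ℚ, d ≠ 0 → ∃ E : ℕ, ∀ a b, Rel d a b → Two a b E)
    (F : Finset (Fin r → ℚ)) (hF : ∀ u ∈ F, u ≠ 0) :
    ∃ E : ℕ, ∀ u ∈ F, ∀ a b, Rel u a b → Two a b E := by
  classical
  induction F using Finset.induction_on with
  | empty => exact ⟨0, fun u hu => absurd hu (Finset.notMem_empty u)⟩
  | insert v F hv ih =>
    obtain ⟨E1, h1⟩ := ih fun u hu => hF u (Finset.mem_insert_of_mem hu)
    obtain ⟨E2, h2⟩ := hS v (hF v (Finset.mem_insert_self v F))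
    refine ⟨max E1 E2, fun u hu a b hab => ?_⟩
    rcases Finset.mem_insert.1 hu with rfl | hu
    · exact (h2 a b hab).mono (le_max_right _ _)
    · exact (h1 u hu a b hab).mono (le_max_left _ _)

/-- a family over `Fin n` of monotone existence statements has a common bound. -/
theorem common {n : ℕ} (P : Fin n → ℕ → ℕ → Prop)
    (hmono : ∀ i N N' E E', N ≤ N' → E ≤ E' → P i N E → P i N' E')
    (h : ∀ i, ∃ N E, P i N E) : ∃ N E, ∀ i, P i N E := by
  choose N E hNE using h
  refine ⟨∑ i, N i, ∑ i, E i, fun i => hmono i _ _ _ _ ?_ ?_ (hNE i)⟩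
  · exact Finset.single_le_sum (f := N) (fun j _ => Nat.zero_le _) (Finset.mem_univ i)
  · exact Finset.single_le_sum (f := E) (fun j _ => Nat.zero_le _) (Finset.mem_univ i)

theorem rel_solve {s : ℕ} {d : Fin (s + 1) → ℚ} {a b : Fin (s + 1) → ℤ} (h : Rel d a b)
    (i : Fin (s + 1)) (hi : d i ≠ 0) :
    ∑ j, (- d (i.succAbove j) / d i) * ((2 : ℚ) ^ a (i.succAbove j) * 3 ^ b (i.succAbove j))
      = (2 : ℚ) ^ a i * 3 ^ b i := by
  unfold Rel at h
  rw [Fin.sum_univ_succAbove _ i] at h
  have h1 : ∑ j, (- d (i.succAbove j) / d i) *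
      ((2 : ℚ) ^ a (i.succAbove j) * 3 ^ b (i.succAbove j))
      = - (∑ j, d (i.succAbove j) * ((2 : ℚ) ^ a (i.succAbove j) * 3 ^ b (i.succAbove j)))
        / d i := by
    rw [neg_div, Finset.sum_div, ← Finset.sum_neg_distrib]
    exact Finset.sum_congr rfl fun j _ => by ring
  rw [h1, div_eq_iff hi]
  linear_combination - h

/-- the two properties of a bound for all indices. -/
theorem step3 (h3 : E3) {s : ℕ}
    (ih : ∀ d : Fin s → ℚ, d ≠ 0 → ∃ E : ℕ, ∀ a b, Rel d a b → Two a b E)
    (d : Fin (s + 1) → ℚ) (hd : ∀ i, d i ≠ 0) (i : Fin (s + 1)) :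
    ∃ N0 E : ℕ, ∀ N : ℕ, N0 ≤ N → ∀ a b : Fin (s + 1) → ℤ,
      (∀ k, |a k| ≤ N ∧ |b k| ≤ N) → Rel d a b → ∀ m : Fin (s + 1), m ≠ i →
      (1 / 4 : ℝ) * N ≤ (b i : ℝ) - b m → Two a b E := by
  obtain ⟨N0, F, hF, hN⟩ := h3 s (fun j => - d (i.succAbove j) / d i) 1 (1 / 4) (by norm_num)
  obtain ⟨E, hE⟩ := fin_bound ih F hF
  refine ⟨N0, E, fun N hN0 a b hab hrel m hm hle => ?_⟩
  obtain ⟨m', rfl⟩ := Fin.exists_succAbove_eq hm
  obtain ⟨u, hu, hu0⟩ := hN N hN0 (fun j => a (i.succAbove j)) (fun j => b (i.succAbove j)) 1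
    (a i) (b i) m' (fun j => by simpa using hab (i.succAbove j))
    (div_ne_zero (neg_ne_zero.2 (hd _)) (hd i))
    (by rw [rel_solve hrel i (hd i)]; simp) hle
  exact (hE u hu _ _ hu0).lift i

theorem stepI (hI : EI) {s : ℕ}
    (ih : ∀ d : Fin s → ℚ, d ≠ 0 → ∃ E : ℕ, ∀ a b, Rel d a b → Two a b E)
    (d : Fin (s + 1) → ℚ) (hd : ∀ i, d i ≠ 0) (i : Fin (s + 1)) :
    ∃ N0 E : ℕ, ∀ N : ℕ, N0 ≤ N → ∀ a b : Fin (s + 1) → ℤ,
      (∀ k, |a k| ≤ N ∧ |b k| ≤ N) → Rel d a b → ∀ m : Fin (s + 1), m ≠ i →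
      (2 : ℝ) ^ a i * 3 ^ b i ≤ (2 : ℝ) ^ (-(1 / 4 : ℝ) * N) * (2 ^ a m * 3 ^ b m) →
      Two a b E := by
  obtain ⟨N0, F, hF, hN⟩ := hI s (fun j => - d (i.succAbove j) / d i) 1 (1 / 4) (by norm_num)
  obtain ⟨E, hE⟩ := fin_bound ih F hF
  refine ⟨N0, E, fun N hN0 a b hab hrel m hm hle => ?_⟩
  obtain ⟨m', rfl⟩ := Fin.exists_succAbove_eq hm
  have hsum : ∑ j, (((- d (i.succAbove j) / d i : ℚ)) : ℝ) *
      ((2 : ℝ) ^ a (i.succAbove j) * 3 ^ b (i.succAbove j)) = (2 : ℝ) ^ a i * 3 ^ b i := by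
    have := congrArg (fun x : ℚ => (x : ℝ)) (rel_solve hrel i (hd i))
    push_cast at this ⊢
    exact this
  obtain ⟨u, hu, hu0⟩ := hN N hN0 (fun j => a (i.succAbove j)) (fun j => b (i.succAbove j)) m'
    (fun j => by simpa using hab (i.succAbove j))
    (div_ne_zero (neg_ne_zero.2 (hd _)) (hd i))
    (by
      rw [hsum, abs_of_pos (by positivity)]
      exact hle)
  exact (hE u hu _ _ hu0).lift i

theorem rel_shift {r : ℕ} {d : Fin r → ℚ} {a b : Fin r → ℤ} (h : Rel d a b) (a0 b0 : ℤ) :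
    Rel d (fun i => a i - a0) (fun i => b i - b0) := by
  unfold Rel at h ⊢
  have : ∀ i, d i * ((2 : ℚ) ^ (a i - a0) * 3 ^ (b i - b0))
      = (d i * ((2 : ℚ) ^ a i * 3 ^ b i)) * ((2 : ℚ) ^ (-a0) * 3 ^ (-b0)) := by
    intro i
    rw [sub_eq_add_neg, sub_eq_add_neg, zpow_add₀ (by norm_num), zpow_add₀ (by norm_num)]
    ring
  rw [Finset.sum_congr rfl fun i _ => this i, ← Finset.sum_mul, h, zero_mul]

theorem gSUN' (h3 : E3) (hI : EI) :
    ∀ (r : ℕ) (d : Fin r → ℚ), d ≠ 0 → ∃ E : ℕ, ∀ a b : Fin r → ℤ, Rel d a b → Two a b E := by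
  intro r
  induction r with
  | zero => intro d hd; exact absurd (Subsingleton.elim d 0) hd
  | succ s ih =>
    intro d hd
    by_cases hz : ∃ i, d i = 0
    · obtain ⟨i, hi⟩ := hz
      have hd' : (fun j => d (i.succAbove j)) ≠ 0 := by
        intro h
        apply hd
        funext k
        rcases eq_or_ne k i with rfl | hk
        · exact hi
        · obtain ⟨j, rfl⟩ := Fin.exists_succAbove_eq hk
          exact congrFun h j
      obtain ⟨E, hE⟩ := ih _ hd'
      refine ⟨E, fun a b hab => ?_⟩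
      unfold Rel at hab
      rw [Fin.sum_univ_succAbove _ i, hi, zero_mul, zero_add] at hab
      exact (hE (fun j => a (i.succAbove j)) (fun j => b (i.succAbove j)) hab).lift i
    · push Not at hz
      rcases Nat.eq_zero_or_pos s with rfl | hs
      · refine ⟨0, fun a b hab => ?_⟩
        exfalso
        unfold Rel at hab
        rw [Fin.sum_univ_succ] at hab
        simp only [Finset.univ_eq_empty, Finset.sum_empty, add_zero] at hab
        have h1 : (2 : ℚ) ^ a 0 * 3 ^ b 0 > 0 := by positivity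
        rcases mul_eq_zero.1 hab with h | h
        · exact hz 0 h
        · exact h1.ne' h
      · obtain ⟨N3, E3, hE3⟩ := common (P := fun i N0 E => ∀ N : ℕ, N0 ≤ N →
            ∀ a b : Fin (s + 1) → ℤ, (∀ k, |a k| ≤ N ∧ |b k| ≤ N) → Rel d a b →
            ∀ m : Fin (s + 1), m ≠ i → (1 / 4 : ℝ) * N ≤ (b i : ℝ) - b m → Two a b E)
          (fun i N N' E E' hN hE h M hM a b hab hr m hm hle =>
            (h M (hN.trans hM) a b hab hr m hm hle).mono hE)
          (step3 h3 ih d hz)
        obtain ⟨NI, EI', hEI⟩ := common (P := fun i N0 E => ∀ N : ℕ, N0 ≤ N →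
            ∀ a b : Fin (s + 1) → ℤ, (∀ k, |a k| ≤ N ∧ |b k| ≤ N) → Rel d a b →
            ∀ m : Fin (s + 1), m ≠ i →
            (2 : ℝ) ^ a i * 3 ^ b i ≤ (2 : ℝ) ^ (-(1 / 4 : ℝ) * N) * (2 ^ a m * 3 ^ b m) →
            Two a b E)
          (fun i N N' E E' hN hE h M hM a b hab hr m hm hle =>
            (h M (hN.trans hM) a b hab hr m hm hle).mono hE)
          (stepI hI ih d hz)
        set N0 : ℕ := N3 + NI + 1 with hN0
        refine ⟨N0 + E3 + EI', fun a b hab => ?_⟩
        obtain ⟨i3, -, hi3⟩ := Finset.exists_min_image Finset.univ a ⟨0, Finset.mem_univ _⟩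
        obtain ⟨i1, -, hi1⟩ := Finset.exists_min_image Finset.univ b ⟨0, Finset.mem_univ _⟩
        obtain ⟨i2, -, hi2⟩ := Finset.exists_max_image Finset.univ a ⟨0, Finset.mem_univ _⟩
        obtain ⟨i4, -, hi4⟩ := Finset.exists_max_image Finset.univ b ⟨0, Finset.mem_univ _⟩
        have hi3 : ∀ i, a i3 ≤ a i := fun i => hi3 i (Finset.mem_univ i)
        have hi1 : ∀ i, b i1 ≤ b i := fun i => hi1 i (Finset.mem_univ i)
        have hi2 : ∀ i, a i ≤ a i2 := fun i => hi2 i (Finset.mem_univ i)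
        have hi4 : ∀ i, b i ≤ b i4 := fun i => hi4 i (Finset.mem_univ i)
        have hrel := rel_shift hab (a i3) (b i1)
        obtain ⟨N, hN⟩ : ∃ N : ℕ, (N : ℤ) = max (a i2 - a i3) (b i4 - b i1) :=
          ⟨(max (a i2 - a i3) (b i4 - b i1)).toNat, by
            have := hi3 i2
            rw [Int.toNat_of_nonneg]
            exact (sub_nonneg.2 this).trans (le_max_left _ _)⟩
        have hNa : ∀ i, a i - a i3 ≤ N := fun i => by
          rw [hN]; exact (sub_le_sub_right (hi2 i) _).trans (le_max_left _ _)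
        have hNb : ∀ i, b i - b i1 ≤ N := fun i => by
          rw [hN]; exact (sub_le_sub_right (hi4 i) _).trans (le_max_right _ _)
        suffices hT : Two (fun i => a i - a i3) (fun i => b i - b i1) (N0 + E3 + EI') by
          obtain ⟨i, j, hij, h1, h2⟩ := hT
          refine ⟨i, j, hij, ?_, ?_⟩
          · simpa using h1
          · simpa using h2
        by_cases hlt : N < N0
        · have h01 : (0 : Fin (s + 1)) ≠ Fin.last s := by
            intro h
            have := congrArg Fin.val h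
            simp at this
            omega
          refine ⟨0, Fin.last s, h01, ?_, ?_⟩
          · have h1 := hNa 0
            have h2 := hNa (Fin.last s)
            have h3 := hi3 0
            have h4 := hi3 (Fin.last s)
            show |(a 0 - a i3) - (a (Fin.last s) - a i3)| ≤ ((N0 + E3 + EI' : ℕ) : ℤ)
            rw [abs_le]
            push_cast
            constructor <;> omega
          · have h1 := hNb 0
            have h2 := hNb (Fin.last s)
            have h3 := hi1 0
            have h4 := hi1 (Fin.last s)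
            show |(b 0 - b i1) - (b (Fin.last s) - b i1)| ≤ ((N0 + E3 + EI' : ℕ) : ℤ)
            rw [abs_le]
            push_cast
            constructor <;> omega
        · push Not at hlt
          have hN1 : 1 ≤ N := by omega
          have hNr : (1 : ℝ) ≤ N := by exact_mod_cast hN1
          have hbd : ∀ k, |a k - a i3| ≤ (N : ℤ) ∧ |b k - b i1| ≤ (N : ℤ) := fun k => by
            rw [abs_of_nonneg (sub_nonneg.2 (hi3 k)), abs_of_nonneg (sub_nonneg.2 (hi1 k))]
            exact ⟨hNa k, hNb k⟩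
          by_cases hb : ∃ i, (1 / 4 : ℝ) * N ≤ ((b i - b i1 : ℤ) : ℝ)
          · obtain ⟨i, hi⟩ := hb
            have hne : i1 ≠ i := by
              rintro rfl
              simp at hi
              linarith
            refine (hE3 i N (by omega) _ _ hbd hrel i1 hne ?_).mono (by omega)
            simpa using hi
          · push Not at hb
            have hbm := hb i4
            have hNeq : (N : ℤ) = a i2 - a i3 := by
              rcases max_choice (a i2 - a i3) (b i4 - b i1) with h | h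
              · rw [hN, h]
              · exfalso
                have h5 : (N : ℤ) = b i4 - b i1 := by rw [hN, h]
                rw [← h5] at hbm
                push_cast at hbm
                linarith
            have hne : i2 ≠ i3 := by
              rintro rfl
              rw [sub_self] at hNeq
              have : N = 0 := by exact_mod_cast hNeq
              omega
            refine (hEI i3 N (by omega) _ _ hbd hrel i2 hne ?_).mono (by omega)
            have e1 : (2 : ℝ) ^ (a i3 - a i3) = 1 := by simp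
            have e2 : (3 : ℝ) ^ (b i3 - b i1) ≤ (2 : ℝ) ^ ((1 / 2 : ℝ) * N) := by
              have hb3 := hb i3
              rw [← Real.rpow_intCast]
              calc (3 : ℝ) ^ (((b i3 - b i1 : ℤ)) : ℝ) ≤ (4 : ℝ) ^ (((b i3 - b i1 : ℤ)) : ℝ) := by
                    refine Real.rpow_le_rpow (by norm_num) (by norm_num) ?_
                    exact_mod_cast sub_nonneg.2 (hi1 i3)
                _ ≤ (4 : ℝ) ^ ((1 / 4 : ℝ) * N) :=
                    Real.rpow_le_rpow_of_exponent_le (by norm_num) hb3.le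
                _ = (2 : ℝ) ^ ((1 / 2 : ℝ) * N) := by
                    rw [show (4 : ℝ) = (2 : ℝ) ^ (2 : ℝ) by norm_num, ← Real.rpow_mul (by norm_num)]
                    congr 1
                    ring
            have e3 : (2 : ℝ) ^ (a i2 - a i3) = (2 : ℝ) ^ (N : ℝ) := by
              rw [← hNeq, zpow_natCast, Real.rpow_natCast]
            have e4 : (1 : ℝ) ≤ (3 : ℝ) ^ (b i2 - b i1) :=
              one_le_zpow₀ (by norm_num) (sub_nonneg.2 (hi1 i2))
            rw [e1, one_mul, e3]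
            calc (3 : ℝ) ^ (b i3 - b i1) ≤ (2 : ℝ) ^ ((1 / 2 : ℝ) * N) := e2
              _ ≤ (2 : ℝ) ^ (-(1 / 4 : ℝ) * N + N) := by
                  refine Real.rpow_le_rpow_of_exponent_le (by norm_num) ?_
                  linarith
              _ = (2 : ℝ) ^ (-(1 / 4 : ℝ) * N) * ((2 : ℝ) ^ (N : ℝ) * 1) := by
                  rw [Real.rpow_add (by norm_num), mul_one]
              _ ≤ _ := by gcongr

theorem gSUN (h3 : E3) (hI : EI) : SUN := fun r d hd => gSUN' h3 hI r d hd

end Pool.Agent.Helper57.IR
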